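import Pool.Agent.MNE.StmtsB

/-!
# MNE, row ZER: the zero estimate
-/

set_option autoImplicit false

namespace Pool.Agent.MNE.H87

open Finset Polynomial

/-- the degree and the top coefficient of a determinant of polynomials of degree at most `N` -/
theorem det_coeff (n N : ℕ) (M : Matrix (Fin n) (Fin n) ℝ[X])
    (hM : ∀ i j, (M i j).natDegree ≤ N) :
    M.det.natDegree ≤ n * N ∧
      M.det.coeff (n * N) = Matrix.det (Matrix.of fun i j : Fin n => (M i j).coeff N) := by
  have hprod : ∀ σ : Equiv.Perm (Fin n), (∏ i, M (σ i) i).natDegree ≤ n * N := by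
    intro σ
    refine (natDegree_prod_le _ _).trans ?_
    refine (Finset.sum_le_sum fun i _ => hM (σ i) i).trans ?_
    rw [Finset.sum_const, Finset.card_univ, Fintype.card_fin, smul_eq_mul]
  constructor
  · rw [Matrix.det_apply]
    refine natDegree_sum_le_of_forall_le _ _ fun σ _ => ?_
    exact (natDegree_smul_le _ _).trans (hprod σ)
  · rw [Matrix.det_apply, Matrix.det_apply, finsetSum_coeff]
    refine Finset.sum_congr rfl fun σ _ => ?_
    have h1 : (∏ i, M (σ i) i).coeff (n * N) = ∏ i, (M (σ i) i).coeff N := by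
      have h2 := coeff_prod_of_natDegree_le (s := (Finset.univ : Finset (Fin n)))
        (f := fun i => M (σ i) i) N (fun i _ => hM (σ i) i)
      rw [Finset.card_univ, Fintype.card_fin] at h2
      exact h2
    have h3 : (Equiv.Perm.sign σ • ∏ i, M (σ i) i).coeff (n * N) =
        Equiv.Perm.sign σ • (∏ i, M (σ i) i).coeff (n * N) := by
      rw [Units.smul_def, Units.smul_def, coeff_smul]
    rw [h3, h1]
    rfl

theorem zer : ZerStmt := by
  classical
  intro K L R w z A W p hA hW hw hLR hKL hinj hz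
  by_contra hp0
  set P : Fin L → ℝ[X] := fun m => ∑ k : Fin K, C (p k m) * X ^ (k : ℕ) with hP
  have hPeval : ∀ m ξ, (P m).eval ξ = ∑ k : Fin K, p k m * ξ ^ (k : ℕ) := by
    intro m ξ
    show (∑ k : Fin K, C (p k m) * X ^ (k : ℕ)).eval ξ = _
    rw [eval_finsetSum]
    exact Finset.sum_congr rfl fun k _ => by rw [eval_mul, eval_C, eval_pow, eval_X]
  have hPcoeff : ∀ m (k : Fin K), (P m).coeff k = p k m := by
    intro m k
    show (∑ k : Fin K, C (p k m) * X ^ (k : ℕ)).coeff k = _
    rw [finsetSum_coeff, Finset.sum_eq_single k]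
    · rw [coeff_C_mul_X_pow, if_pos rfl]
    · intro k' _ hk'
      rw [coeff_C_mul_X_pow, if_neg fun h => hk' (Fin.ext h).symm]
    · intro h
      exact absurd (Finset.mem_univ _) h
  have hPdeg : ∀ m, (P m).natDegree ≤ K - 1 := by
    intro m
    refine natDegree_sum_le_of_forall_le _ _ fun k _ => ?_
    refine (natDegree_C_mul_X_pow_le _ _).trans ?_
    have := k.2
    omega
  -- the set of the nonzero polynomials
  have hex : ∃ m, P m ≠ 0 := by
    by_contra h
    push Not at h
    apply hp0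
    funext k m
    rw [← hPcoeff m k, h m, coeff_zero]
    rfl
  set n : ℕ := Fintype.card {m : Fin L // P m ≠ 0} with hn
  set e : Fin n ≃ {m : Fin L // P m ≠ 0} := (Fintype.equivFin _).symm with he
  have hnL : n ≤ L := by
    have h := Fintype.card_subtype_le (fun m : Fin L => P m ≠ 0)
    rwa [Fintype.card_fin] at h
  have hn0 : 0 < n := by
    obtain ⟨m, hm⟩ := hex
    exact Fintype.card_pos_iff.2 ⟨⟨m, hm⟩⟩
  set mm : Fin n → ℕ := fun j => ((e j).1 : ℕ) with hmm
  set M : Matrix (Fin n) (Fin n) ℝ[X] := Matrix.of fun i j =>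
    (P (e j).1).comp (X + C (((i : ℕ) * w : ℕ) : ℝ)) * C (((A : ℝ)) ^ ((i : ℕ) * mm j)) with hM
  set M' : Matrix (Fin n) (Fin n) ℝ[X] := Matrix.of fun i j =>
    X ^ (K - 1 - (P (e j).1).natDegree) * M i j with hM'
  have hdet' : M'.det = (∏ j, X ^ (K - 1 - (P (e j).1).natDegree)) * M.det :=
    Matrix.det_mul_row (fun j => X ^ (K - 1 - (P (e j).1).natDegree)) M
  -- degrees
  have hq1 : ∀ a : ℝ, (X + C a : ℝ[X]).natDegree = 1 := fun a => natDegree_X_add_C a
  have hcomp : ∀ (j : Fin n) (a : ℝ), ((P (e j).1).comp (X + C a)).natDegree =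
      (P (e j).1).natDegree := by
    intro j a
    rw [natDegree_comp, hq1, mul_one]
  have hcompl : ∀ (j : Fin n) (a : ℝ), ((P (e j).1).comp (X + C a)).coeff (P (e j).1).natDegree =
      (P (e j).1).leadingCoeff := by
    intro j a
    have h1 : ((P (e j).1).comp (X + C a)).leadingCoeff = (P (e j).1).leadingCoeff := by
      rw [leadingCoeff_comp (by rw [hq1]; exact one_ne_zero), leadingCoeff_X_add_C, one_pow,
        mul_one]
    rw [← h1, leadingCoeff, hcomp]
  have hM'deg : ∀ i j, (M' i j).natDegree ≤ K - 1 := by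
    intro i j
    show (X ^ (K - 1 - (P (e j).1).natDegree) *
      ((P (e j).1).comp (X + C (((i : ℕ) * w : ℕ) : ℝ)) *
        C (((A : ℝ)) ^ ((i : ℕ) * mm j)))).natDegree ≤ K - 1
    refine (natDegree_mul_le).trans ?_
    have h1 : ((P (e j).1).comp (X + C (((i : ℕ) * w : ℕ) : ℝ)) *
        C (((A : ℝ)) ^ ((i : ℕ) * mm j))).natDegree ≤ (P (e j).1).natDegree := by
      refine (natDegree_mul_C_le _ _).trans ?_
      rw [hcomp]
    have h2 := hPdeg (e j).1
    rw [natDegree_X_pow]
    omega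
  have hM'c : ∀ i j, (M' i j).coeff (K - 1) =
      (P (e j).1).leadingCoeff * (A : ℝ) ^ ((i : ℕ) * mm j) := by
    intro i j
    show (X ^ (K - 1 - (P (e j).1).natDegree) *
      ((P (e j).1).comp (X + C (((i : ℕ) * w : ℕ) : ℝ)) *
        C (((A : ℝ)) ^ ((i : ℕ) * mm j)))).coeff (K - 1) = _
    have h2 := hPdeg (e j).1
    rw [coeff_X_pow_mul', if_pos (Nat.sub_le _ _), coeff_mul_C,
      show K - 1 - (K - 1 - (P (e j).1).natDegree) = (P (e j).1).natDegree by omega, hcompl]
  obtain ⟨hdeg, hcoeff⟩ := det_coeff n (K - 1) M' hM'deg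
  -- the top coefficient is not zero
  have htop : M'.det.coeff (n * (K - 1)) ≠ 0 := by
    rw [hcoeff]
    have h1 : (Matrix.of fun i j : Fin n => (M' i j).coeff (K - 1)) =
        Matrix.of fun i j : Fin n => (P (e j).1).leadingCoeff *
          (Matrix.vandermonde fun j : Fin n => (A : ℝ) ^ mm j).transpose i j := by
      ext i j
      show (M' i j).coeff (K - 1) = (P (e j).1).leadingCoeff * ((A : ℝ) ^ mm j) ^ (i : ℕ)
      rw [hM'c, ← pow_mul, mul_comm (i : ℕ)]
    rw [h1, Matrix.det_mul_row, Matrix.det_transpose]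
    refine mul_ne_zero (Finset.prod_ne_zero_iff.2 fun j _ => ?_) ?_
    · exact leadingCoeff_ne_zero.2 (e j).2
    · rw [Matrix.det_vandermonde_ne_zero_iff]
      intro j j' h
      have h2 : A ^ mm j = A ^ mm j' := by
        have h0 : ((A : ℝ) ^ mm j) = (A : ℝ) ^ mm j' := h
        exact_mod_cast h0
      have h3 : mm j = mm j' := Nat.pow_right_injective hA h2
      exact e.injective (Subtype.ext (Fin.ext h3))
  -- the zeros
  have hzero : ∀ r s : ℕ, r < R - L → s < R → M.det.eval ((r * w + s * z : ℕ) : ℝ) = 0 := by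
    intro r s hr hs
    have h1 : M.det.eval ((r * w + s * z : ℕ) : ℝ) =
        (M.map (eval ((r * w + s * z : ℕ) : ℝ))).det :=
      (evalRingHom ((r * w + s * z : ℕ) : ℝ)).map_det M
    rw [h1, ← Matrix.exists_mulVec_eq_zero_iff]
    have hY : (0 : ℝ) < (A : ℝ) ^ r * (W : ℝ) ^ s := by
      have h2 : (0 : ℝ) < A := by exact_mod_cast (by omega : 0 < A)
      have h3 : (0 : ℝ) < W := by exact_mod_cast (by omega : 0 < W)
      positivity
    refine ⟨fun j => ((A : ℝ) ^ r * (W : ℝ) ^ s) ^ mm j, ?_, ?_⟩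
    · intro h
      have h2 := congrFun h ⟨0, hn0⟩
      exact (pow_pos hY _).ne' h2
    · funext i
      have hri : r + (i : ℕ) < R := by
        have := i.2
        omega
      have h2 := hz (r + i) s hri hs
      show ∑ j, (M i j).eval ((r * w + s * z : ℕ) : ℝ) * ((A : ℝ) ^ r * (W : ℝ) ^ s) ^ mm j = 0
      set g : Fin L → ℝ := fun m => (P m).eval ((((r + (i : ℕ)) * w + s * z : ℕ)) : ℝ) *
        ((A : ℝ) ^ ((m : ℕ) * (r + i)) * (W : ℝ) ^ ((m : ℕ) * s)) with hg
      have h3 : ∀ j, (M i j).eval ((r * w + s * z : ℕ) : ℝ) *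
          ((A : ℝ) ^ r * (W : ℝ) ^ s) ^ mm j = g (e j).1 := by
        intro j
        show ((P (e j).1).comp (X + C (((i : ℕ) * w : ℕ) : ℝ)) *
          C (((A : ℝ)) ^ ((i : ℕ) * mm j))).eval ((r * w + s * z : ℕ) : ℝ) * _ = _
        rw [eval_mul, eval_C, eval_comp, eval_add, eval_X, eval_C]
        show (P (e j).1).eval _ * _ * _ = (P (e j).1).eval _ * ((A : ℝ) ^ (mm j * (r + i)) *
          (W : ℝ) ^ (mm j * s))
        have h4 : (((r * w + s * z : ℕ) : ℝ) + (((i : ℕ) * w : ℕ) : ℝ)) =
            ((((r + (i : ℕ)) * w + s * z : ℕ)) : ℝ) := by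
          push_cast
          ring
        rw [h4, mul_assoc]
        congr 1
        rw [mul_pow, ← pow_mul, ← pow_mul, ← mul_assoc, ← pow_add, mul_comm s]
        congr 2
        ring
      rw [Finset.sum_congr rfl fun j _ => h3 j, e.sum_comp (fun m : {m : Fin L // P m ≠ 0} => g m.1)]
      have h5 : ∑ m : {m : Fin L // P m ≠ 0}, g m.1 = ∑ m, g m := by
        rw [← Finset.sum_subtype (Finset.univ.filter (fun m : Fin L => P m ≠ 0))
          (fun m => by simp) g]
        refine Finset.sum_filter_of_ne fun m _ h hP0 => h ?_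
        show (P m).eval _ * _ = 0
        rw [hP0, eval_zero, zero_mul]
      rw [h5, ← h2, Finset.sum_comm]
      refine Finset.sum_congr rfl fun m _ => ?_
      show (P m).eval _ * _ = _
      rw [hPeval, Finset.sum_mul]
      exact Finset.sum_congr rfl fun k _ => mul_assoc _ _ _
  -- the end
  set S : Finset ℝ := ((range (R - L) ×ˢ range R).image fun q : ℕ × ℕ =>
    ((q.1 * w + q.2 * z : ℕ) : ℝ)) with hS
  have hScard : S.card = (R - L) * R := by
    rw [hS, Finset.card_image_of_injOn, Finset.card_product, Finset.card_range, Finset.card_range]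
    rintro ⟨r, s⟩ h1 ⟨r', s'⟩ h2 h3
    rw [Finset.mem_coe, Finset.mem_product, Finset.mem_range, Finset.mem_range] at h1 h2
    have h0 : ((r * w + s * z : ℕ) : ℝ) = ((r' * w + s' * z : ℕ) : ℝ) := h3
    have h4 : r * w + s * z = r' * w + s' * z := Nat.cast_injective h0
    simp only at h1 h2
    obtain ⟨rfl, rfl⟩ := hinj r s r' s' (by omega) h1.2 (by omega) h2.2 h4
    rfl
  have hfin : M'.det = 0 := by
    refine eq_zero_of_natDegree_lt_card_of_eval_eq_zero' _ S ?_ ?_
    · intro ξ hξ
      obtain ⟨⟨r, s⟩, h1, rfl⟩ := Finset.mem_image.1 hξ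
      rw [Finset.mem_product, Finset.mem_range, Finset.mem_range] at h1
      rw [hdet', eval_mul, hzero r s h1.1 h1.2, mul_zero]
    · rw [hScard]
      refine lt_of_le_of_lt hdeg (lt_of_le_of_lt ?_ hKL)
      rw [mul_comm n]
      exact Nat.mul_le_mul_left _ hnL
  rw [hfin, coeff_zero] at htop
  exact htop rfl

end Pool.Agent.MNE.H87
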